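import Pool.Agent.H539R2.WitD

/-!
For every `c`: deterministic space `2 ^ (c * n)` is not contained in the time
`o((2 ^ (c * n) / log (2 ^ (c * n))) ^ (1 + 1 / d))` of `d`-dimensional cellular automata.
-/

namespace Pool.Agent.Results.MP_d67941_lc.CATimeExp

open Pool.Agent.H539R2 Filter

/-- a deterministic cellular automaton as a verifier with trivial witnesses -/
def toW {d : ℕ} (M : DCA d) : WCA d 1 where
  Q := M.Q
  finQ := M.finQ
  blank := M.blank
  inp := fun o _ => match o with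
    | some b => M.inp b
    | none => M.blank
  δ := M.δ
  acc := M.acc

theorem toW_init {d : ℕ} [NeZero d] (M : DCA d) (m : ℕ) (x : List Bool) (hm : x.length ≤ m)
    (y : ℕ → Fin 1) : (toW M).init m x y = M.init x := by
  funext v
  unfold WCA.init DCA.init
  by_cases h : (∀ j, j ≠ 0 → v j = 0) ∧ 0 ≤ v 0 ∧ v 0 < x.length
  · have hlt : (v 0).toNat < x.length := by omega
    rw [if_pos h, if_pos ⟨h.1, h.2.1, by have := h.2.2; omega⟩]
    simp [toW, List.getD_eq_getElem?_getD, List.getElem?_eq_getElem hlt]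
  · rw [if_neg h]
    split_ifs with h2
    · have hge : x.length ≤ (v 0).toNat := by
        by_contra hc
        exact h ⟨h2.1, h2.2.1, by omega⟩
      simp [toW, List.getElem?_eq_none hge]
    · rfl

theorem toW_accAt {d : ℕ} [NeZero d] (M : DCA d) (m : ℕ) (x : List Bool) (hm : x.length ≤ m)
    (y : ℕ → Fin 1) (t : ℕ) : (toW M).AccAt m x y t ↔ M.AccAt x t := by
  unfold WCA.AccAt DCA.AccAt WCA.run DCA.run
  rw [toW_init M m x hm y]
  rfl

/-- For every `c ≥ 1` there is a deterministic one-tape Turing machine `A` working on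
`2 ^ (c * n)` tape cells, accepting only words over the one-letter alphabet `{true}`, such that for
every dimension `d ≥ 1` no deterministic cellular automaton on the grid `ℤ^d` accepts the language
of `A` in time `T` whenever `T n = o((2 ^ (c * n) / log (2 ^ (c * n))) ^ (1 + 1 / d))`. -/
theorem result (c : ℕ) (hc : 1 ≤ c) :
    ∃ A : STM, (∀ w, A.Acc (fun n => 2 ^ (c * n)) w → ∀ x ∈ w, x = true) ∧
      ∀ (d : ℕ) [NeZero d] (M : DCA d) (T : ℕ → ℕ),
        (fun n => (T n : ℝ)) =o[atTop] (fun n : ℕ =>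
          (((2 ^ (c * n) : ℕ) : ℝ) / Real.log ((2 ^ (c * n) : ℕ) : ℝ)) ^ (1 + 1 / (d : ℝ))) →
        M.InTime T → ¬ ∀ x, (A.Acc (fun n => 2 ^ (c * n)) x ↔ M.Acc x) := by
  obtain ⟨A, hA, h⟩ := DD.TW.mainWexp 1 c le_rfl hc
  have hS : ∀ n : ℕ, n ≤ 2 ^ (c * n) := fun n =>
    (Nat.le_mul_of_pos_left n hc).trans Nat.lt_two_pow_self.le
  refine ⟨A, hA, fun d _ M T hT hin hAM => ?_⟩
  have hacc : ∀ x, (toW M).Acc (fun n => 2 ^ (c * n)) x ↔ M.Acc x := by
    intro x
    constructor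
    · rintro ⟨y, t, ht⟩
      exact ⟨t, (toW_accAt M _ x (hS _) y t).1 ht⟩
    · rintro ⟨t, ht⟩
      exact ⟨fun _ => 0, t, (toW_accAt M _ x (hS _) _ t).2 ht⟩
  refine h d (toW M) T hT ?_ (fun x => (hAM x).trans (hacc x).symm)
  intro x hx
  obtain ⟨t, ht, ha⟩ := hin x ((hacc x).1 hx)
  exact ⟨fun _ => 0, t, ht, (toW_accAt M _ x (hS _) _ t).2 ha⟩

end Pool.Agent.Results.MP_d67941_lc.CATimeExp
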