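import Pool.Agent.H547U1.Cls

/-!
# Exponential space over sets of Boolean functions

Padded input: `X = (1^N, x)` with `N = 2 ^ (p |x|)`, `p` a constant. `EXPSPACEover B`: languages
decided by iterating `2 ^ |X|` times a map on configurations of length polynomial in `|X|`, each
bit of which has circuits of size polynomial in `|X|` with gates from `B`. `EXPSPACE`: the same
without the condition on circuits; `EXP`: decided in time polynomial in `|X|`.
-/

set_option autoImplicit false

namespace Pool.Agent.Results.MP_d67941_lc.GateSetDichotomy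

open Pool.Agent.H547R6 Pool.Agent.H547R7 Pool.Agent.H547R8 Pool.Agent.H547R9
open Pool.Agent.H547U1

/-- **Dichotomy for exponential space over gate sets.** -/
theorem result (B : Set BFun) :
    ((B ⊆ Aff ∨ B ⊆ Conj ∨ B ⊆ Disj) → EXPSPACEover B = EXP) ∧
    (¬ (B ⊆ Aff ∨ B ⊆ Conj ∨ B ⊆ Disj) → EXPSPACEover B = EXPSPACE) :=
  ⟨space_easy B, fun h => space_hard B (fun h1 => h (Or.inl h1))
    (fun h1 => h (Or.inr (Or.inl h1))) (fun h1 => h (Or.inr (Or.inr h1)))⟩

end Pool.Agent.Results.MP_d67941_lc.GateSetDichotomy
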