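import Pool.Agent.H622R2.Exp.FinalE
import Pool.Agent.H622R2.Exp.FinalIO

/-!
# How many oracles make `E` and `ESPACE` equal, everywhere or infinitely often?

For every gauge `f`, the set of the oracles `A` with `E^A = ESPACE^A` is a null set for `f` if and
only if for every `ε > 0` there are infinitely many `N` with `f N ≤ (log N) ^ ε`. The set of the
oracles `A` such that every language in `ESPACE^A` agrees, on all inputs of length `n` for
infinitely many `n`, with a language in `E^A`, is a null set for `f` if and only if for every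
`ε > 0` and all large `N` there is `N' ≥ N` with `f N' ≤ (log N) ^ ε`; the same holds for every
set of oracles between this one and the set of the oracles `A` such that every language in
`ESPACE^A` agrees in this sense with a language in the exponential hierarchy relative to `A`.
-/

namespace Pool.Agent.Results.MP_d67941_lc.GaugeThreshold

open Pool.Agent.NPC Pool.Agent.H620R2.Gauge Pool.Agent.H622R2.Exp Filter

theorem result (f : ℕ → ℝ) :
    (Null f {A : Oracle | ∀ L, InTime Lin A L ↔ InSpace Lin A L} ↔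
      ∀ ε : ℝ, 0 < ε → ∃ᶠ N : ℕ in atTop, f N ≤ (Real.logb 2 N) ^ ε) ∧
    (∀ O : Set Oracle,
      (∀ A : Oracle, (∀ L, InSpace Lin A L → IO (InTime Lin A) L) → A ∈ O) →
      (∀ A ∈ O, ∀ L, InSpace Lin A L → IO (InAlt Lin A) L) →
      (Null f O ↔
        ∀ ε : ℝ, 0 < ε → ∀ᶠ N : ℕ in atTop, ∃ N' ≥ N, f N' ≤ (Real.logb 2 N) ^ ε)) ∧
    (Null f {A : Oracle | ∀ L, InSpace Lin A L → IO (InTime Lin A) L} ↔
      ∀ ε : ℝ, 0 < ε → ∀ᶠ N : ℕ in atTop, ∃ N' ≥ N, f N' ≤ (Real.logb 2 N) ^ ε) := by
  refine ⟨(resE f).1 _ ?_ ?_, resIO f⟩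
  · intro A hA L
    exact ⟨fun h => h.isNTime.isSpace good_Lin, hA L⟩
  · intro A hA L hL
    exact (hA L).2 (hL.isSpace good_Lin)

end Pool.Agent.Results.MP_d67941_lc.GaugeThreshold
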